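import Pool.Agent.Helper6.LP.St

/-!
# Project LP, module CHP: Chebyshev
-/

set_option autoImplicit false

namespace Pool.Agent.Helper29.LP

open Finset Filter
open Pool.Agent.Helper6.LP

private lemma ev_log (c d : ℝ) (hc : 0 < c) (n : ℕ) :
    ∀ᶠ x : ℝ in atTop, d * Real.log x ^ n ≤ c * x ^ (1 / 2 : ℝ) := by
  have h := isLittleO_log_rpow_rpow_atTop (n : ℝ) (by norm_num : (0 : ℝ) < 1 / 2)
  have hd : 0 < c / (|d| + 1) := by positivity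
  have h1 := h.bound hd
  filter_upwards [h1, eventually_ge_atTop (1 : ℝ)] with x hx hx1
  have hl : 0 ≤ Real.log x := Real.log_nonneg hx1
  rw [Real.rpow_natCast, Real.norm_of_nonneg (pow_nonneg hl n),
    Real.norm_of_nonneg (by positivity)] at hx
  have h2 : d * Real.log x ^ n ≤ (|d| + 1) * Real.log x ^ n :=
    mul_le_mul_of_nonneg_right (by linarith [le_abs_self d]) (pow_nonneg hl n)
  refine h2.trans ?_
  have h3 := mul_le_mul_of_nonneg_left hx (by positivity : (0 : ℝ) ≤ |d| + 1)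
  refine h3.trans (le_of_eq ?_)
  field_simp

/-- Chebyshev -/
private lemma chb (M : ℕ) (X : ℕ → ℝ) (μ : ℝ) :
    (((Icc 1 M).filter (fun m : ℕ => X m = 0)).card : ℝ) * μ ^ 2 ≤
      ∑ m ∈ Icc 1 M, X m ^ 2 - 2 * μ * ∑ m ∈ Icc 1 M, X m + μ ^ 2 * M := by
  have h1 : ∑ m ∈ Icc 1 M, (X m - μ) ^ 2 =
      ∑ m ∈ Icc 1 M, X m ^ 2 - 2 * μ * ∑ m ∈ Icc 1 M, X m + μ ^ 2 * M := by
    have h2 : ∀ m ∈ Icc 1 M, (X m - μ) ^ 2 = X m ^ 2 - 2 * μ * X m + μ ^ 2 := by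
      intro m _
      ring
    rw [sum_congr rfl h2, sum_add_distrib, sum_sub_distrib, ← mul_sum, sum_const, Nat.card_Icc]
    simp only [nsmul_eq_mul, Nat.add_sub_cancel]
    ring
  rw [← h1]
  calc (((Icc 1 M).filter (fun m : ℕ => X m = 0)).card : ℝ) * μ ^ 2
      = ∑ m ∈ (Icc 1 M).filter (fun m : ℕ => X m = 0), (X m - μ) ^ 2 := by
        rw [← nsmul_eq_mul, ← sum_const]
        refine sum_congr rfl fun m hm => ?_
        rw [(mem_filter.mp hm).2]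
        norm_num
    _ ≤ ∑ m ∈ Icc 1 M, (X m - μ) ^ 2 :=
        sum_le_sum_of_subset_of_nonneg (filter_subset _ _) fun _ _ _ => sq_nonneg _

/-- the final inequality -/
private lemma fin_chp (N τ η M J Λ S S1 S2 : ℝ) (hM : 0 < M) (hη : 0 < η) (hη4 : η ≤ 1 / 4)
    (hτ : 0 < τ) (hJ : J ≤ 2 * τ) (hΛ1 : 1 ≤ Λ) (hΛ : Λ ≤ η * τ / 2) (hS0 : 0 ≤ S)
    (hS : 4 * Λ ^ 2 * S ≤ η * M)
    (h1 : (1 - η) * (M * τ) - τ * Λ * S ≤ S1)
    (h2 : S2 ≤ (1 + η) * (M * (τ * (τ + η * J + 1))) + 2 * (M * τ * Λ) + 2 * (τ ^ 2 * Λ ^ 2 * S))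
    (h3 : N * τ ^ 2 ≤ S2 - 2 * τ * S1 + τ ^ 2 * M) : N ≤ 9 * η * M := by
  have a1 : 2 * τ * ((1 - η) * (M * τ) - τ * Λ * S) ≤ 2 * τ * S1 :=
    mul_le_mul_of_nonneg_left h1 (by positivity)
  have a2 : (1 + η) * (M * (τ * (τ + η * J + 1))) ≤ (1 + η) * (M * (τ * (τ + η * (2 * τ) + 1))) := by
    gcongr
  have a3 : (1 + η) * (M * (τ * (τ + η * (2 * τ) + 1))) =
      M * τ ^ 2 * ((1 + η) * (1 + 2 * η)) + (1 + η) * (M * τ) := by ring
  have a4 : (1 + η) * (1 + 2 * η) ≤ 1 + 4 * η := by nlinarith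
  have a5 : M * τ ^ 2 * ((1 + η) * (1 + 2 * η)) ≤ M * τ ^ 2 * (1 + 4 * η) :=
    mul_le_mul_of_nonneg_left a4 (by positivity)
  have hMτ : 0 < M * τ := by positivity
  have a6 : (1 + η) * (M * τ) ≤ 2 * Λ * (M * τ) :=
    mul_le_mul_of_nonneg_right (by linarith) hMτ.le
  have a7 : 4 * (M * τ) * Λ ≤ 4 * (M * τ) * (η * τ / 2) :=
    mul_le_mul_of_nonneg_left hΛ (by positivity)
  have a8 : Λ ≤ Λ ^ 2 := by nlinarith
  have a9 : 2 * (τ ^ 2 * S) * Λ ≤ 2 * (τ ^ 2 * S) * Λ ^ 2 :=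
    mul_le_mul_of_nonneg_left a8 (by positivity)
  have a10 : τ ^ 2 * (4 * Λ ^ 2 * S) ≤ τ ^ 2 * (η * M) :=
    mul_le_mul_of_nonneg_left hS (by positivity)
  have h8 : N * τ ^ 2 ≤ (9 * η * M) * τ ^ 2 := by
    linarith
  exact le_of_mul_le_mul_right h8 (by positivity)

theorem hCHP (h1 : StMOA) (h2 : StMOB) (hT : StTGO) (hV : StVLP) : StCHP := by
  obtain ⟨A, hA, HT⟩ := hT
  obtain ⟨c, hc, HV⟩ := hV
  refine ⟨A, hA, fun ε hε => ?_⟩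
  obtain ⟨η, hηd⟩ : ∃ η : ℝ, η = min (ε / 16) (1 / 4) := ⟨_, rfl⟩
  have hη0 : 0 < η := by rw [hηd]; exact lt_min (by positivity) (by norm_num)
  have hη1 : η ≤ 1 / 4 := by rw [hηd]; exact min_le_right _ _
  have hηε : η ≤ ε / 16 := by rw [hηd]; exact min_le_left _ _
  obtain ⟨B₁, H1⟩ := h1 η hη0
  obtain ⟨B₂, q₂, hq₂, H2⟩ := h2 η hη0
  obtain ⟨δ, hδ⟩ : ∃ δ : ℝ, δ = 1 / (2 * ((B₁ : ℝ) + B₂) + 2) := ⟨_, rfl⟩
  have hB₁ : (0 : ℝ) ≤ B₁ := Nat.cast_nonneg _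
  have hB₂ : (0 : ℝ) ≤ B₂ := Nat.cast_nonneg _
  have hδ0 : 0 < δ := by rw [hδ]; positivity
  have hδ1 : δ ≤ 1 := by
    rw [hδ, div_le_one (by positivity)]
    linarith
  have hδB₁ : δ * B₁ ≤ 1 / 2 := by
    rw [hδ, div_mul_eq_mul_div, div_le_iff₀ (by positivity)]
    linarith
  have hδB₂ : δ * B₂ ≤ 1 / 2 := by
    rw [hδ, div_mul_eq_mul_div, div_le_iff₀ (by positivity)]
    linarith
  obtain ⟨K, hK⟩ : ∃ K : ℝ, K = Real.exp A / c := ⟨_, rfl⟩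
  have hK0 : 0 < K := by rw [hK]; have := Real.exp_pos A; positivity
  obtain ⟨C, hCd⟩ : ∃ C : ℝ, C = 4 * K / η := ⟨_, rfl⟩
  have hC0 : 0 < C := by rw [hCd]; positivity
  refine ⟨δ, C, hδ0, hδ1, hC0, max 32 q₂, le_max_left _ _, fun p P hp hP hl => ?_⟩
  have hp32 : 32 ≤ p := (le_max_left _ _).trans hp
  obtain ⟨J₂, H2⟩ := H2 p P ((le_max_right _ _).trans hp) hP hl
  obtain ⟨I₀, HT⟩ := HT p P hp32 hP hl (C / 4) (by positivity)
  have ev1 := ev_log η (4 * K ^ 2) hη0 4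
  have ev2 := (tendsto_rpow_atTop hδ0).eventually_ge_atTop ((2 : ℝ) ^ (max I₀ 2 + 1))
  have ev3 := Real.tendsto_log_atTop.eventually_ge_atTop
    (1 + 1 / K + (J₂ : ℝ) / C + 2 / δ + (C + 1) / (δ / 2) ^ 3)
  obtain ⟨x₀, hx₀⟩ := eventually_atTop.1
    ((ev1.and (ev2.and ev3)).and (eventually_ge_atTop (1 : ℝ)))
  refine ⟨⌈x₀⌉₊, fun M I J a r hM hI1 hI2 hJ1 hJ2 hr1 hr2 => ?_⟩
  obtain ⟨⟨e1, e2, e3⟩, hM1⟩ := hx₀ (M : ℝ) (Nat.ceil_le.1 hM)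
  obtain ⟨L, hLd⟩ : ∃ L : ℝ, L = Real.log M := ⟨_, rfl⟩
  rw [← hLd] at e1 e3 hJ1 hJ2
  have hM0 : (0 : ℝ) < M := by linarith
  have t1 : 0 < 1 / K := by positivity
  have t2 : 0 ≤ (J₂ : ℝ) / C := by positivity
  have t3 : 0 < 2 / δ := by positivity
  have t4 : 0 < (C + 1) / (δ / 2) ^ 3 := by positivity
  have hL1 : 1 ≤ L := by linarith
  have hL0 : 0 < L := by linarith
  have hLK : 1 ≤ K * L := by
    have : 1 / K ≤ L := by linarith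
    rw [div_le_iff₀ hK0] at this
    linarith
  have hLJ : (J₂ : ℝ) ≤ C * L := by
    have : (J₂ : ℝ) / C ≤ L := by linarith
    rw [div_le_iff₀ hC0] at this
    linarith
  have hLδ : 2 ≤ δ * L := by
    have : 2 / δ ≤ L := by linarith
    rw [div_le_iff₀ hδ0] at this
    linarith
  have hLC : C + 1 ≤ (δ / 2) ^ 3 * L := by
    have : (C + 1) / (δ / 2) ^ 3 ≤ L := by linarith
    rw [div_le_iff₀ (by positivity)] at this
    linarith
  have hLL : L ≤ L ^ 2 := by nlinarith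
  -- the size of I
  have hI3 : max I₀ 2 < I := by
    have h : (2 : ℝ) ^ (max I₀ 2 + 1) < 2 ^ (I + 1) := lt_of_le_of_lt e2 hI2
    have h' : (2 : ℕ) ^ (max I₀ 2 + 1) < 2 ^ (I + 1) := by exact_mod_cast h
    have := (Nat.pow_lt_pow_iff_right (by norm_num : 1 < 2)).1 h'
    omega
  have hI0 : I₀ ≤ I := (le_max_left _ _).trans hI3.le
  have hI2' : 3 ≤ I := by have := le_max_right I₀ 2; omega
  have hlog2 : 1 / 2 < Real.log 2 := by have := Real.log_two_gt_d9; linarith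
  have hlog2' : Real.log 2 < 1 := by have := Real.log_two_lt_d9; linarith
  have hlM : Real.log ((M : ℝ) ^ δ) = δ * L := by rw [Real.log_rpow hM0, hLd]
  have hIu : (I : ℝ) ≤ 2 * L := by
    have h := Real.log_le_log (by positivity) hI1
    rw [hlM, Real.log_pow] at h
    have h4 : δ * L ≤ 1 * L := mul_le_mul_of_nonneg_right hδ1 hL0.le
    have h5 : (I : ℝ) * (1 / 2) ≤ I * Real.log 2 :=
      mul_le_mul_of_nonneg_left hlog2.le (Nat.cast_nonneg _)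
    linarith
  have hIl : δ / 2 * L ≤ I := by
    have h := Real.log_le_log (by positivity) hI2.le
    rw [hlM, Real.log_pow] at h
    push_cast at h
    have h5 : ((I : ℝ) + 1) * Real.log 2 ≤ (I + 1) * 1 :=
      mul_le_mul_of_nonneg_left hlog2'.le (by positivity)
    linarith
  have hJ3 : C / 4 * (I : ℝ) ^ 2 ≤ J := by
    have h : (I : ℝ) ^ 2 ≤ (2 * L) ^ 2 := pow_le_pow_left₀ (Nat.cast_nonneg _) hIu 2
    have h' := mul_le_mul_of_nonneg_left h (by positivity : 0 ≤ C / 4)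
    linarith
  have hJ4 : J ≤ I ^ 3 := by
    have h : (δ / 2 * L) ^ 3 ≤ (I : ℝ) ^ 3 := pow_le_pow_left₀ (by positivity) hIl 3
    have h4 : (C + 1) * L ^ 2 ≤ (δ / 2) ^ 3 * L * L ^ 2 :=
      mul_le_mul_of_nonneg_right hLC (by positivity)
    have h5 : (δ / 2 * L) ^ 3 = (δ / 2) ^ 3 * L * L ^ 2 := by ring
    have h6 : (J : ℝ) ≤ (I : ℝ) ^ 3 := by nlinarith
    exact_mod_cast h6
  have hτJ := HT I J r hI0 hJ3 hJ4 hr1 hr2
  obtain ⟨w, hw⟩ : ∃ w : ℕ, w = 2 ^ I - 1 := ⟨_, rfl⟩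
  rw [← hw] at hτJ ⊢
  have h2I : 8 ≤ 2 ^ I := by
    calc 8 = 2 ^ 3 := by norm_num
      _ ≤ 2 ^ I := Nat.pow_le_pow_right (by norm_num) hI2'
  have hw3 : 3 ≤ w := by omega
  have hwle : (w : ℝ) ≤ (M : ℝ) ^ δ := by
    have : (w : ℝ) ≤ ((2 ^ I : ℕ) : ℝ) := by exact_mod_cast (by omega : w ≤ 2 ^ I)
    push_cast at this
    linarith
  have hwM : (w : ℝ) ≤ M := by
    refine hwle.trans ?_
    calc (M : ℝ) ^ δ ≤ (M : ℝ) ^ (1 : ℝ) := Real.rpow_le_rpow_of_exponent_le hM1 hδ1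
      _ = M := Real.rpow_one _
  have hwB : ∀ B : ℕ, δ * B ≤ 1 / 2 → (w : ℝ) ^ B ≤ (M : ℝ) ^ (1 / 2 : ℝ) := by
    intro B hB
    calc (w : ℝ) ^ B ≤ ((M : ℝ) ^ δ) ^ B := pow_le_pow_left₀ (Nat.cast_nonneg _) hwle B
      _ = (M : ℝ) ^ (δ * B) := by rw [← Real.rpow_natCast, ← Real.rpow_mul hM0.le]
      _ ≤ (M : ℝ) ^ (1 / 2 : ℝ) := Real.rpow_le_rpow_of_exponent_le hM1 hB
  have hw1 := hwB B₁ hδB₁
  have hw2 := hwB B₂ hδB₂
  obtain ⟨S, hS⟩ : ∃ S : ℝ, S = (M : ℝ) ^ (1 / 2 : ℝ) := ⟨_, rfl⟩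
  have hS0 : 0 < S := by rw [hS]; positivity
  have hSS : S * S = M := by
    rw [hS, ← Real.rpow_add (by linarith)]
    norm_num
  rw [← hS] at e1 hw1 hw2
  have hw3R : (3 : ℝ) ≤ w := by exact_mod_cast hw3
  have hwlog : 0 < Real.log w := Real.log_pos (by linarith)
  have hlogle : Real.log w ≤ L := by
    rw [hLd]
    exact Real.log_le_log (by linarith) hwM
  obtain ⟨Λ, hΛd⟩ : ∃ Λ : ℝ, Λ = K * L ^ 2 := ⟨_, rfl⟩
  have hΛ1 : 1 ≤ Λ := by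
    rw [hΛd]
    have : K * L ≤ K * L ^ 2 := mul_le_mul_of_nonneg_left hLL hK0.le
    linarith
  have hTV : ∀ j ∈ TT A p w P r J, 1 ≤ Λ * VV p w P a (r + P * j) := by
    intro j hj
    unfold TT at hj
    rw [mem_filter] at hj
    obtain ⟨-, hj6, hjA⟩ := hj
    have h := HV p w P a (r + P * j) (by omega) hw3 hl (by omega)
    have h4 : c * Real.exp (-A) / Real.log w ^ 2 ≤ VV p w P a (r + P * j) := by
      refine le_trans ?_ h
      gcongr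
    have h5 : c * Real.exp (-A) / L ^ 2 ≤ c * Real.exp (-A) / Real.log w ^ 2 := by
      gcongr
    have h6 : Λ * (c * Real.exp (-A) / L ^ 2) = 1 := by
      rw [hΛd, hK, Real.exp_neg]
      have := (Real.exp_pos A).ne'
      field_simp
    calc (1 : ℝ) = Λ * (c * Real.exp (-A) / L ^ 2) := h6.symm
      _ ≤ Λ * VV p w P a (r + P * j) :=
        mul_le_mul_of_nonneg_left (h5.trans h4) (by linarith)
  have hJ₂ : J₂ ≤ J := by
    have h : C * L ≤ C * L ^ 2 := mul_le_mul_of_nonneg_left hLL hC0.le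
    exact_mod_cast (by linarith : (J₂ : ℝ) ≤ J)
  have m1 := H1 A Λ p w P a r J M (by omega) (by omega) hl hΛ1 hTV
  have m2 := H2 A Λ J a r w M hJ₂ hr1 hr2 (by omega) hΛ1 hTV
  obtain ⟨τ, hτ⟩ : ∃ τ : ℝ, τ = ((TT A p w P r J).card : ℝ) := ⟨_, rfl⟩
  rw [← hτ] at m1 m2 hτJ
  have hCL : 0 < C * L ^ 2 := by positivity
  have hτ0 : 0 < τ := by linarith
  have hΛτ : Λ ≤ η * τ / 2 := by
    have h4 : C * L ^ 2 = 4 * Λ / η := by
      rw [hCd, hΛd]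
      ring
    have h5 : 4 * Λ / η ≤ 2 * τ := by
      rw [← h4]
      linarith
    rw [div_le_iff₀ hη0] at h5
    linarith
  have hSM : 4 * Λ ^ 2 * S ≤ η * M := by
    have h4 : 4 * Λ ^ 2 = 4 * K ^ 2 * L ^ 4 := by rw [hΛd]; ring
    rw [h4, ← hSS, ← mul_assoc]
    exact mul_le_mul_of_nonneg_right e1 hS0.le
  have hfin := fin_chp (((Icc 1 M).filter (fun m : ℕ => XX A p w P a r J m = 0)).card : ℝ) τ η M J Λ S
    (∑ m ∈ Icc 1 M, XX A p w P a r J m) (∑ m ∈ Icc 1 M, XX A p w P a r J m ^ 2)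
    hM0 hη0 hη1 hτ0 hτJ hΛ1 hΛτ hS0.le hSM
    (by
      refine le_trans ?_ m1
      have : τ * Λ * (w : ℝ) ^ B₁ ≤ τ * Λ * S :=
        mul_le_mul_of_nonneg_left hw1 (by positivity)
      linarith)
    (by
      refine m2.trans ?_
      have : τ ^ 2 * Λ ^ 2 * (w : ℝ) ^ B₂ ≤ τ ^ 2 * Λ ^ 2 * S :=
        mul_le_mul_of_nonneg_left hw2 (by positivity)
      linarith)
    (chb M (fun m => XX A p w P a r J m) τ)
  refine hfin.trans ?_
  have : 9 * η ≤ ε := by linarith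
  exact mul_le_mul_of_nonneg_right this hM0.le

end Pool.Agent.Helper29.LP
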